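import Pool.Agent.U874.RS.StmC

set_option autoImplicit false

/-!
# Project RS, part C, package EDG: the distances of neighbours on the circle
-/

namespace Pool.Agent.U296.RSC

open Pool.Agent.U874.RS
open scoped Real

theorem t_EDG (h : P_DST) : P_EDG := by
  intro n a θ hn ha hθ
  obtain ⟨-, hd⟩ := h n a θ ha hθ
  constructor
  · intro i j hij
    have hlt : i < j := by
      rw [Fin.lt_def]; omega
    rw [hd i j hlt]
    have hf : Finset.univ.filter (fun k : Fin n => i ≤ k ∧ k < j) = {i} := by
      ext k
      simp only [Finset.mem_filter, Finset.mem_univ, true_and, Finset.mem_singleton, Fin.le_def,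
        Fin.lt_def, Fin.ext_iff]
      omega
    rw [hf, Finset.sum_singleton]
  · intro i j hi hj
    have hlt : i < j := by
      rw [Fin.lt_def]; omega
    rw [hd i j hlt]
    have hf : Finset.univ.filter (fun k : Fin n => i ≤ k ∧ k < j) = Finset.univ.erase j := by
      ext k
      have := k.isLt
      simp only [Finset.mem_filter, Finset.mem_univ, true_and, Finset.mem_erase, and_true,
        Fin.le_def, Fin.lt_def, ne_eq, Fin.ext_iff]
      omega
    have hs : ∑ k ∈ Finset.univ.erase j, θ k = 2 * π - θ j := by
      have h1 := Finset.sum_erase_add Finset.univ θ (Finset.mem_univ j)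
      have h2 := hθ.2
      linarith
    rw [hf, hs]
    have h3 : (2 * π - θ j) / 2 = π - θ j / 2 := by ring
    rw [h3, Real.sin_pi_sub]

end Pool.Agent.U296.RSC
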